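import Pool.Agent.MAG.Root

/-! The arithmetic part: an algebraic unit all of whose conjugates are bounded. -/

namespace Pool.Agent.MAG

/-- an algebraic integer all of whose conjugates are small is zero -/
theorem eq_zero_of_small {K : Type*} [Field K] [NumberField K] {ω : K} (hω : IsIntegral ℤ ω)
    (h : ∀ φ : K →ₐ[ℚ] ℂ, ‖φ ω‖ < 1) : ω = 0 := by
  have h1 : IsIntegral ℤ (Algebra.norm ℚ ω) := Algebra.isIntegral_norm ℚ hω
  obtain ⟨n, hn⟩ := IsIntegrallyClosed.isIntegral_iff.1 h1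
  have h2 := Algebra.norm_eq_prod_embeddings ℚ ℂ ω
  by_contra hne
  have h3 : ‖algebraMap ℚ ℂ (Algebra.norm ℚ ω)‖ < 1 := by
    rw [h2, norm_prod]
    have hnonempty : (Finset.univ : Finset (K →ₐ[ℚ] ℂ)).Nonempty :=
      Finset.univ_nonempty_iff.2 ⟨IsAlgClosed.lift⟩
    have h4 : ∏ σ : K →ₐ[ℚ] ℂ, ‖σ ω‖ < ∏ _σ : K →ₐ[ℚ] ℂ, (1 : ℝ) := by
      refine Finset.prod_lt_prod_of_nonempty ?_ ?_ hnonempty
      · intro σ _
        rw [norm_pos_iff]
        exact (map_ne_zero σ).2 hne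
      · intro σ _
        exact h σ
    simpa using h4
  rw [← hn] at h3
  have h5 : ‖(n : ℂ)‖ < 1 := by simpa using h3
  rw [Complex.norm_intCast] at h5
  have h6 : |n| < 1 := by exact_mod_cast h5
  have h7 : n = 0 := Int.abs_lt_one_iff.1 h6
  rw [h7] at hn
  have h8 : Algebra.norm ℚ ω = 0 := by rw [← hn]; simp
  exact hne (Algebra.norm_eq_zero_iff.1 h8)

theorem norm_zpow_exp {s : ℂ} (hs : s ≠ 0) (m : ℤ) :
    ‖s ^ m‖ = Real.exp (m * Real.log ‖s‖) := by
  rw [norm_zpow, ← Real.rpow_intCast, Real.rpow_def_of_pos (norm_pos_iff.2 hs), mul_comm]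

theorem conj_low {i j k : ℤ} (hj : |j| < i) (hk : |k| < i) {r : ℝ} (hr : 0 < r)
    (hE : Real.cosh (i * r) = Real.cosh (j * r) + Real.cosh (k * r)) {s : ℂ} (hs : s ≠ 0)
    (h : s ^ i + s ^ (-i) = s ^ j + s ^ (-j) + s ^ k + s ^ (-k)) :
    Real.exp (-r) ≤ ‖s‖ := by
  by_contra hcon
  push Not at hcon
  have hs0 : 0 < ‖s‖ := norm_pos_iff.2 hs
  set t := Real.log ‖s‖ with ht
  have htr : t < -r := by
    rw [ht]; exact (Real.log_lt_iff_lt_exp hs0).2 hcon
  have hjr : |(j : ℝ)| < i := by exact_mod_cast hj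
  have hkr : |(k : ℝ)| < i := by exact_mod_cast hk
  have hex := excess_pos hjr hkr hr.le (show r < -t by linarith) hE.ge
  have key : (1 - s ^ (i + j)) * (1 - s ^ (i - j)) = s ^ (i - k) + s ^ (i + k) := by
    rw [sub_eq_add_neg i j, sub_eq_add_neg i k, zpow_add₀ hs, zpow_add₀ hs, zpow_add₀ hs,
      zpow_add₀ hs]
    have f1 : s ^ i * s ^ (-i) = 1 := by rw [← zpow_add₀ hs]; simp
    have f2 : s ^ j * s ^ (-j) = 1 := by rw [← zpow_add₀ hs]; simp
    linear_combination (s ^ i) * h - f1 + (s ^ i) ^ 2 * f2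
  have n1 := norm_sub_norm_le (1 : ℂ) (s ^ (i + j))
  have n2 := norm_sub_norm_le (1 : ℂ) (s ^ (i - j))
  have n3 := norm_add_le (s ^ (i - k)) (s ^ (i + k))
  rw [← key, norm_mul] at n3
  rw [norm_one] at n1 n2
  rw [norm_zpow_exp hs] at n1 n2
  rw [norm_zpow_exp hs, norm_zpow_exp hs] at n3
  rw [← ht] at n1 n2 n3
  push_cast at n1 n2 n3
  have hlt1 : Real.exp (((i : ℝ) + j) * t) < 1 := by
    rw [Real.exp_lt_one_iff]
    have : 0 < (i : ℝ) + j := by linarith [neg_abs_le (j : ℝ)]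
    nlinarith
  have hlt2 : Real.exp (((i : ℝ) - j) * t) < 1 := by
    rw [Real.exp_lt_one_iff]
    have : 0 < (i : ℝ) - j := by linarith [le_abs_self (j : ℝ)]
    nlinarith
  have hprod : (1 - Real.exp (((i : ℝ) + j) * t)) * (1 - Real.exp (((i : ℝ) - j) * t))
      ≤ Real.exp (((i : ℝ) - k) * t) + Real.exp (((i : ℝ) + k) * t) :=
    le_trans (mul_le_mul n1 n2 (by linarith) (norm_nonneg _)) n3
  have g1 : Real.exp (((i : ℝ) + j) * t) = Real.exp (i * t) * Real.exp (j * t) := by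
    rw [← Real.exp_add]; ring_nf
  have g2 : Real.exp (((i : ℝ) - j) * t) = Real.exp (i * t) * Real.exp (-(j * t)) := by
    rw [← Real.exp_add]; ring_nf
  have g3 : Real.exp (((i : ℝ) + k) * t) = Real.exp (i * t) * Real.exp (k * t) := by
    rw [← Real.exp_add]; ring_nf
  have g4 : Real.exp (((i : ℝ) - k) * t) = Real.exp (i * t) * Real.exp (-(k * t)) := by
    rw [← Real.exp_add]; ring_nf
  have g5 : Real.exp (i * t) * Real.exp (-(i * t)) = 1 := by
    rw [← Real.exp_add]; simp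
  have g6 : Real.exp (j * t) * Real.exp (-(j * t)) = 1 := by
    rw [← Real.exp_add]; simp
  rw [g1, g2, g3, g4] at hprod
  have hle : Real.exp (i * t) * (Real.exp (i * t) + Real.exp (-(i * t)))
      ≤ Real.exp (i * t) * ((Real.exp (j * t) + Real.exp (-(j * t)))
        + (Real.exp (k * t) + Real.exp (-(k * t)))) := by
    have e1 : (1 - Real.exp (i * t) * Real.exp (j * t)) *
        (1 - Real.exp (i * t) * Real.exp (-(j * t)))
        = 1 - Real.exp (i * t) * Real.exp (j * t) - Real.exp (i * t) * Real.exp (-(j * t))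
          + Real.exp (i * t) * Real.exp (i * t) := by
      linear_combination (Real.exp (i * t)) ^ 2 * g6
    rw [e1] at hprod
    rw [mul_add, g5]
    linarith
  have hle' := le_of_mul_le_mul_left hle (Real.exp_pos _)
  have c1 := Real.cosh_eq (i * -t)
  have c2 := Real.cosh_eq (j * -t)
  have c3 := Real.cosh_eq (k * -t)
  rw [mul_neg, neg_neg] at c1 c2 c3
  rw [mul_neg, mul_neg, mul_neg] at hex
  linarith

theorem conj_bound {i j k : ℤ} (hj : |j| < i) (hk : |k| < i) {r : ℝ} (hr : 0 < r)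
    (hE : Real.cosh (i * r) = Real.cosh (j * r) + Real.cosh (k * r)) {s : ℂ} (hs : s ≠ 0)
    (h : s ^ i + s ^ (-i) = s ^ j + s ^ (-j) + s ^ k + s ^ (-k)) (m : ℤ) :
    ‖s ^ m - s ^ (-m)‖ ≤ 2 * Real.cosh (m * r) := by
  have h1 := conj_low hj hk hr hE hs h
  have h2 := conj_low hj hk hr hE (inv_ne_zero hs) (s := s⁻¹) (by
    rw [inv_zpow', inv_zpow', inv_zpow', inv_zpow', inv_zpow', inv_zpow', neg_neg, neg_neg, neg_neg]
    linear_combination h)
  have hs0 : 0 < ‖s‖ := norm_pos_iff.2 hs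
  set t := Real.log ‖s‖ with ht
  have t1 : -r ≤ t := by
    rw [ht]; exact (Real.le_log_iff_exp_le hs0).2 h1
  have t2 : t ≤ r := by
    rw [norm_inv] at h2
    have h3 : -r ≤ Real.log (‖s‖⁻¹) := (Real.le_log_iff_exp_le (inv_pos.2 hs0)).2 h2
    rw [Real.log_inv] at h3
    linarith
  have h4 : Real.cosh (m * t) ≤ Real.cosh (m * r) := by
    rw [Real.cosh_le_cosh, abs_mul, abs_mul, abs_of_pos hr]
    exact mul_le_mul_of_nonneg_left (abs_le.2 ⟨t1, t2⟩) (abs_nonneg _)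
  have h5 := norm_sub_le (s ^ m) (s ^ (-m))
  rw [norm_zpow_exp hs, norm_zpow_exp hs, ← ht] at h5
  have c1 := Real.cosh_eq (m * t)
  push_cast at h5
  rw [neg_mul] at h5
  linarith

open Polynomial in
theorem isIntegral_of_eq {K : Type*} [Field K] {s : K} (hs : s ≠ 0) {i j k : ℤ} (hj : |j| < i)
    (hk : |k| < i) (h : s ^ i + s ^ (-i) = s ^ j + s ^ (-j) + s ^ k + s ^ (-k)) :
    IsIntegral ℤ s := by
  have hj' := abs_lt.1 hj
  have hk' := abs_lt.1 hk
  have key : s ^ (i + i) = s ^ (i + j) + s ^ (i - j) + s ^ (i + k) + s ^ (i - k) - 1 := by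
    rw [sub_eq_add_neg i j, sub_eq_add_neg i k, zpow_add₀ hs, zpow_add₀ hs, zpow_add₀ hs,
      zpow_add₀ hs, zpow_add₀ hs]
    have f1 : s ^ i * s ^ (-i) = 1 := by rw [← zpow_add₀ hs]; simp
    linear_combination (s ^ i) * h - f1
  obtain ⟨n, hn⟩ := Int.eq_ofNat_of_zero_le (show 0 ≤ i + i by omega)
  obtain ⟨a, ha⟩ := Int.eq_ofNat_of_zero_le (show 0 ≤ i + j by omega)
  obtain ⟨b, hb⟩ := Int.eq_ofNat_of_zero_le (show 0 ≤ i - j by omega)
  obtain ⟨c, hc⟩ := Int.eq_ofNat_of_zero_le (show 0 ≤ i + k by omega)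
  obtain ⟨d, hd⟩ := Int.eq_ofNat_of_zero_le (show 0 ≤ i - k by omega)
  rw [hn, ha, hb, hc, hd, zpow_natCast, zpow_natCast, zpow_natCast, zpow_natCast,
    zpow_natCast] at key
  have hdeg : (X ^ a + X ^ b + X ^ c + X ^ d - 1 : ℤ[X]).degree < n := by
    rw [← mem_degreeLT]
    have hx : ∀ e : ℕ, e < n → (X ^ e : ℤ[X]) ∈ degreeLT ℤ n := by
      intro e he
      rw [mem_degreeLT, degree_X_pow]
      exact_mod_cast he
    refine Submodule.sub_mem _ (Submodule.add_mem _ (Submodule.add_mem _ (Submodule.add_mem _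
      (hx a (by omega)) (hx b (by omega))) (hx c (by omega))) (hx d (by omega))) ?_
    have := hx 0 (by omega)
    simpa using this
  refine ⟨X ^ n - (X ^ a + X ^ b + X ^ c + X ^ d - 1), monic_X_pow_sub hdeg, ?_⟩
  simp only [eval₂_sub, eval₂_add, eval₂_X_pow, eval₂_one]
  rw [key]; ring

theorem isIntegral_zpow {K : Type*} [Field K] {s : K} (h1 : IsIntegral ℤ s)
    (h2 : IsIntegral ℤ s⁻¹) (m : ℤ) : IsIntegral ℤ (s ^ m) := by
  obtain ⟨n, rfl | rfl⟩ := m.eq_nat_or_neg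
  · rw [zpow_natCast]; exact h1.pow n
  · rw [zpow_neg, zpow_natCast, ← inv_pow]; exact h2.pow n

end Pool.Agent.MAG
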