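import Pool.Agent.MAG.Dil

/-! The test point, and uniqueness of the hyperbolic data of a minimum point. -/

namespace Pool.Agent.MAG

theorem bound {p q : ℤ} (hq : 2 ≤ q) {R : ℝ} (hR : |(p : ℝ)| ≤ R * q) {x y z l : ℝ}
    (hmin : IsMinPt p q x y z) (hl : 0 < l) (hd : IsDil x y z (Real.exp l)) :
    (x + y - z) / 2 * l < Real.log 4 * (R + 3) := by
  obtain ⟨⟨hcone, hplane, hnorm⟩, hle⟩ := hmin
  have hq2 : (2 : ℝ) ≤ q := by exact_mod_cast hq
  have hq0 : (0 : ℝ) < q := by linarith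
  set s := Real.log 4 with hs
  have hs0 : 0 < s := Real.log_pos (by norm_num)
  set b := ((p : ℝ) - q) / (2 * q) * s with hb
  set m := |b| with hm
  have hm0 : 0 ≤ m := abs_nonneg b
  have hbm : b ≤ m := le_abs_self b
  have hbm' : -m ≤ b := neg_abs_le b
  have hmle : m ≤ (R + 1) / 2 * s := by
    rw [hm, hb, abs_mul, abs_div, abs_of_pos hs0, abs_of_pos (show (0 : ℝ) < 2 * q by linarith)]
    refine mul_le_mul_of_nonneg_right ?_ hs0.le
    rw [div_le_div_iff₀ (by linarith) (by norm_num)]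
    have h1 : |(p : ℝ) - q| ≤ |(p : ℝ)| + |(q : ℝ)| := abs_sub _ _
    rw [abs_of_pos hq0] at h1
    nlinarith
  have hsq : s / q ≤ s := div_le_self hs0.le (by linarith)
  have hsq0 : 0 < s / q := div_pos hs0 hq0
  set n := 2 * m + 2 * s - s / q with hn
  have hn0 : 0 < n := by linarith
  have e1 : ((m + s + b) / n - s / n + (b - m) / n) / 2 * n = b := by
    field_simp; ring
  have e2 : ((m + s + b) / n - s / n - (b - m) / n) / 2 * n = m := by
    field_simp; ring
  have e3 : ((m + s + b) / n + s / n - (b - m) / n) / 2 * n = m + s := by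
    field_simp; ring
  have hface : InFace p q ((m + s + b) / n) (s / n) ((b - m) / n) := by
    refine ⟨⟨div_pos (by linarith) hn0, div_pos hs0 hn0, ?_, ?_⟩, ?_, ?_⟩
    · exact div_lt_div_of_pos_right (by linarith) hn0
    · exact div_lt_div_of_pos_right (by linarith) hn0
    · have h2 : 2 * (q : ℝ) * b = (p - q) * s := by
        rw [hb]; field_simp
      rw [← add_div, ← mul_div_assoc, ← mul_div_assoc]
      congr 1
      linear_combination h2
    · have h3 : (m + s + b) / n + s / n - (b - m) / n - s / n / q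
          = (2 * m + 2 * s - s / q) / n := by ring
      rw [h3, ← hn, div_self hn0.ne']
  obtain ⟨r, hr0, hrn, hr⟩ := exists_dil_le (x := (m + s + b) / n) (y := s / n)
    (z := (b - m) / n) hn0 (by
      rw [e1, e2, e3]
      have h4 : Real.cosh b = Real.cosh m := by rw [hm, Real.cosh_abs]
      have h5 := two_cosh_le hm0
      rw [h4]; linarith)
  have h6 := Real.exp_le_exp.1 (hle _ _ _ _ _ hface hd hr)
  have h7 : y < x + y - z := by linarith [hcone.2.2.1]
  have h8 : y / q ≤ y / 2 := by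
    exact div_le_div_of_nonneg_left hcone.2.1.le (by norm_num) hq2
  have h9 : (x + y - z) / 2 < 1 := by linarith
  have h10 : (x + y - z) / 2 * l < 1 * l := mul_lt_mul_of_pos_right h9 hl
  nlinarith

/-- the hyperbolic data cannot be scaled -/
theorem no_scale {a b c a' b' c' μ : ℝ} (hμ : 1 < μ) (h : Real.cosh a = Real.cosh b + Real.cosh c)
    (h' : Real.cosh a' = Real.cosh b' + Real.cosh c') (ha : Real.sinh a' = μ * Real.sinh a)
    (hb : Real.sinh b' = μ * Real.sinh b) (hc : Real.sinh c' = μ * Real.sinh c) : False := by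
  have s1 := Real.cosh_sq a
  have s2 := Real.cosh_sq b
  have s3 := Real.cosh_sq c
  have s4 := Real.cosh_sq a'
  have s5 := Real.cosh_sq b'
  have s6 := Real.cosh_sq c'
  have p2 := Real.cosh_pos b
  have p3 := Real.cosh_pos c
  have p5 := Real.cosh_pos b'
  have p6 := Real.cosh_pos c'
  rw [ha] at s4
  rw [hb] at s5
  rw [hc] at s6
  have hμ2 : 1 < μ ^ 2 := by nlinarith
  have b1 : Real.cosh b' < μ * Real.cosh b := by
    have h1 : Real.cosh b' ^ 2 < (μ * Real.cosh b) ^ 2 := by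
      rw [s5, mul_pow, mul_pow, s2]; nlinarith
    exact lt_of_pow_lt_pow_left₀ 2 (by positivity) h1
  have c1 : Real.cosh c' < μ * Real.cosh c := by
    have h1 : Real.cosh c' ^ 2 < (μ * Real.cosh c) ^ 2 := by
      rw [s6, mul_pow, mul_pow, s3]; nlinarith
    exact lt_of_pow_lt_pow_left₀ 2 (by positivity) h1
  have bc : Real.cosh b' * Real.cosh c' < (μ * Real.cosh b) * (μ * Real.cosh c) :=
    mul_lt_mul'' b1 c1 p5.le p6.le
  have e1 : Real.cosh a ^ 2 = (Real.cosh b + Real.cosh c) ^ 2 := by rw [h]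
  have e2 : Real.cosh a' ^ 2 = (Real.cosh b' + Real.cosh c') ^ 2 := by rw [h']
  nlinarith

/-- proportional data are equal -/
theorem data_unique {a b c a' b' c' : ℝ} (h : Real.cosh a = Real.cosh b + Real.cosh c)
    (h' : Real.cosh a' = Real.cosh b' + Real.cosh c') (ha0 : 0 < a) (ha0' : 0 < a')
    {k₁ k₂ e : ℤ} (hk : 1 ≤ k₂)
    (g1 : (k₁ : ℝ) * Real.sinh b = k₂ * Real.sinh c)
    (g2 : (k₂ : ℝ) * Real.sinh a = e * Real.sinh b)
    (g1' : (k₁ : ℝ) * Real.sinh b' = k₂ * Real.sinh c')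
    (g2' : (k₂ : ℝ) * Real.sinh a' = e * Real.sinh b') : a = a' ∧ b = b' ∧ c = c' := by
  have hk0 : (0 : ℝ) < k₂ := by exact_mod_cast (by omega : 0 < k₂)
  have sa : 0 < Real.sinh a := Real.sinh_pos_iff.2 ha0
  have sa' : 0 < Real.sinh a' := Real.sinh_pos_iff.2 ha0'
  have hne : (e : ℝ) ≠ 0 := by
    intro h0
    rw [h0, zero_mul] at g2
    exact (mul_pos hk0 sa).ne' g2
  set μ := Real.sinh a' / Real.sinh a with hμ
  have ea : Real.sinh a' = μ * Real.sinh a := by
    rw [hμ, div_mul_cancel₀ _ sa.ne']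
  have eb : Real.sinh b' = μ * Real.sinh b := by
    have h1 : (e : ℝ) * Real.sinh b' = e * (μ * Real.sinh b) := by
      rw [← g2', ea]; linear_combination μ * g2
    exact mul_left_cancel₀ hne h1
  have ec : Real.sinh c' = μ * Real.sinh c := by
    have h1 : (k₂ : ℝ) * Real.sinh c' = k₂ * (μ * Real.sinh c) := by
      rw [← g1', eb]; linear_combination μ * g1
    exact mul_left_cancel₀ hk0.ne' h1
  have hμ0 : 0 < μ := div_pos sa' sa
  have hμ1 : μ = 1 := by
    rcases lt_trichotomy μ 1 with h1 | h1 | h1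
    · exfalso
      have h2 : 1 < μ⁻¹ := (one_lt_inv₀ hμ0).2 h1
      refine no_scale h2 h' h ?_ ?_ ?_
      · rw [ea]; field_simp
      · rw [eb]; field_simp
      · rw [ec]; field_simp
    · exact h1
    · exact (no_scale h1 h h' ea eb ec).elim
  rw [hμ1, one_mul] at ea eb ec
  exact ⟨(Real.sinh_injective ea).symm, (Real.sinh_injective eb).symm,
    (Real.sinh_injective ec).symm⟩

/-- the slope is determined by the data -/
theorem slope_unique {a b c : ℝ} {p q p' q' k₁ k₂ e : ℤ} (hk : 1 ≤ k₂) (hca : |c| < a)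
    (h1 : 2 * (q : ℝ) * b = (p - q) * (a - c)) (h2 : 2 * (q' : ℝ) * b = (p' - q') * (a - c))
    (e1 : e = k₂ * (p - q) - k₁ * (2 * q - 1)) (e2 : e = k₂ * (p' - q') - k₁ * (2 * q' - 1))
    (g1 : (k₁ : ℝ) * Real.sinh b = k₂ * Real.sinh c)
    (g2 : (k₂ : ℝ) * Real.sinh a = e * Real.sinh b) : p = p' ∧ q = q' := by
  have hk0 : (0 : ℝ) < k₂ := by exact_mod_cast (by omega : 0 < k₂)
  have hd : 0 < a - c := by linarith [le_abs_self c]
  have e1' : (e : ℝ) = k₂ * (p - q) - k₁ * (2 * q - 1) := by exact_mod_cast e1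
  have e2' : (e : ℝ) = k₂ * (p' - q') - k₁ * (2 * q' - 1) := by exact_mod_cast e2
  have h3 : ((q : ℝ) - q') * (k₂ * b - k₁ * (a - c)) = 0 := by
    linear_combination (k₂ / 2) * h1 - (k₂ / 2) * h2 - (a - c) / 2 * e1' + (a - c) / 2 * e2'
  rcases mul_eq_zero.1 h3 with h4 | h4
  · have hqq : q = q' := by exact_mod_cast sub_eq_zero.1 h4
    refine ⟨?_, hqq⟩
    subst hqq
    have h5 : k₂ * (p - p') = 0 := by linear_combination e2 - e1
    rcases mul_eq_zero.1 h5 with h6 | h6
    · omega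
    · omega
  · exfalso
    have h5 : (k₂ : ℝ) * (p - q) * (a - c) = 2 * q * k₁ * (a - c) := by
      linear_combination 2 * (q : ℝ) * h4 - k₂ * h1
    have h6 : (k₂ : ℝ) * (p - q) = 2 * q * k₁ := mul_right_cancel₀ hd.ne' h5
    have h7 : (e : ℝ) = k₁ := by rw [e1', h6]; ring
    rw [h7, g1] at g2
    have h8 := mul_left_cancel₀ hk0.ne' g2
    have h9 := Real.sinh_injective h8
    linarith

end Pool.Agent.MAG
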