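import Pool.Agent.MAG.Root

/-! Strict convexity of the surface cosh a = cosh b + cosh c, and simplicity of the root. -/

namespace Pool.Agent.MAG

theorem cosh_half_sq (u v : ℝ) : Real.cosh ((u + v) / 2) ^ 2
    = (Real.cosh u * Real.cosh v + Real.sinh u * Real.sinh v + 1) / 2 := by
  have h1 := Real.cosh_two_mul ((u + v) / 2)
  have h2 := Real.cosh_sq ((u + v) / 2)
  have h3 := Real.cosh_add u v
  rw [show 2 * ((u + v) / 2) = u + v by ring] at h1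
  linarith

theorem cosh_half_sq_le (u v : ℝ) :
    Real.cosh ((u + v) / 2) ^ 2 ≤ Real.cosh u * Real.cosh v := by
  rw [cosh_half_sq]
  have h1 := Real.one_le_cosh (u - v)
  rw [Real.cosh_sub] at h1
  linarith

theorem cosh_half_sq_lt {u v : ℝ} (h : u ≠ v) :
    Real.cosh ((u + v) / 2) ^ 2 < Real.cosh u * Real.cosh v := by
  rw [cosh_half_sq]
  have h1 : 1 < Real.cosh (u - v) := Real.one_lt_cosh.2 (sub_ne_zero.2 h)
  rw [Real.cosh_sub] at h1
  linarith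

theorem cauchy3 (u₁ u₂ u₃ v₁ v₂ v₃ α β w : ℝ) (hα : 0 ≤ α) (hβ : 0 ≤ β)
    (hw : w ^ 2 ≤ 4 * α * β) :
    (u₁ * v₁ + u₂ * v₂ + u₃ * v₃ + w) ^ 2
      ≤ (u₁ ^ 2 + u₂ ^ 2 + u₃ ^ 2 + 2 * α) * (v₁ ^ 2 + v₂ ^ 2 + v₃ ^ 2 + 2 * β) := by
  set P := u₁ * v₁ + u₂ * v₂ + u₃ * v₃ with hP
  set U := u₁ ^ 2 + u₂ ^ 2 + u₃ ^ 2 with hU
  set V := v₁ ^ 2 + v₂ ^ 2 + v₃ ^ 2 with hV
  have hU0 : 0 ≤ U := by positivity
  have hV0 : 0 ≤ V := by positivity
  have h1 : P ^ 2 ≤ U * V := by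
    rw [hP, hU, hV]
    nlinarith [sq_nonneg (u₁ * v₂ - u₂ * v₁), sq_nonneg (u₁ * v₃ - u₃ * v₁),
      sq_nonneg (u₂ * v₃ - u₃ * v₂)]
  have h2 : (P * w) ^ 2 ≤ (U * β + V * α) ^ 2 := by
    have h3 : (P * w) ^ 2 ≤ (U * V) * (4 * α * β) := by
      rw [mul_pow]
      exact mul_le_mul h1 hw (sq_nonneg _) (mul_nonneg hU0 hV0)
    nlinarith [sq_nonneg (U * β - V * α)]
  have h4 : P * w ≤ U * β + V * α := by
    refine le_of_abs_le ?_
    exact abs_le_of_sq_le_sq h2 (by positivity)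
  nlinarith

theorem midpoint_lt {a₁ b₁ c₁ a₂ b₂ c₂ : ℝ} (h₁ : Real.cosh a₁ = Real.cosh b₁ + Real.cosh c₁)
    (h₂ : Real.cosh a₂ = Real.cosh b₂ + Real.cosh c₂) (ha₁ : 0 < a₁) (ha₂ : 0 < a₂)
    (hne : b₁ ≠ b₂ ∨ c₁ ≠ c₂) :
    Real.cosh ((b₁ + b₂) / 2) + Real.cosh ((c₁ + c₂) / 2) < Real.cosh ((a₁ + a₂) / 2) := by
  set X := Real.cosh ((b₁ + b₂) / 2) with hX
  set Y := Real.cosh ((c₁ + c₂) / 2) with hY
  have hX0 : 0 < X := Real.cosh_pos _
  have hY0 : 0 < Y := Real.cosh_pos _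
  have pb₁ := Real.cosh_pos b₁
  have pb₂ := Real.cosh_pos b₂
  have pc₁ := Real.cosh_pos c₁
  have pc₂ := Real.cosh_pos c₂
  have hX2 : X ^ 2 ≤ Real.cosh b₁ * Real.cosh b₂ := cosh_half_sq_le _ _
  have hY2 : Y ^ 2 ≤ Real.cosh c₁ * Real.cosh c₂ := cosh_half_sq_le _ _
  have hXY : (X * Y) ^ 2 < (Real.cosh b₁ * Real.cosh b₂) * (Real.cosh c₁ * Real.cosh c₂) := by
    rw [mul_pow]
    rcases hne with h | h
    · exact mul_lt_mul (cosh_half_sq_lt h) hY2 (by positivity) (by positivity)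
    · exact mul_lt_mul' hX2 (cosh_half_sq_lt h) (by positivity) (by positivity)
  have s1 := Real.cosh_sq a₁
  have s2 := Real.cosh_sq a₂
  have t1 := Real.cosh_sq b₁
  have t2 := Real.cosh_sq b₂
  have r1 := Real.cosh_sq c₁
  have r2 := Real.cosh_sq c₂
  have sa₁ : 0 < Real.sinh a₁ := Real.sinh_pos_iff.2 ha₁
  have sa₂ : 0 < Real.sinh a₂ := Real.sinh_pos_iff.2 ha₂
  have e1 : Real.sinh a₁ ^ 2 = Real.sinh b₁ ^ 2 + Real.sinh c₁ ^ 2 + 1 ^ 2
      + 2 * (Real.cosh b₁ * Real.cosh c₁) := by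
    rw [h₁] at s1; nlinarith
  have e2 : Real.sinh a₂ ^ 2 = Real.sinh b₂ ^ 2 + Real.sinh c₂ ^ 2 + 1 ^ 2
      + 2 * (Real.cosh b₂ * Real.cosh c₂) := by
    rw [h₂] at s2; nlinarith
  have hCS := cauchy3 (Real.sinh b₁) (Real.sinh c₁) 1 (Real.sinh b₂) (Real.sinh c₂) 1
    (Real.cosh b₁ * Real.cosh c₁) (Real.cosh b₂ * Real.cosh c₂) (2 * (X * Y))
    (by positivity) (by positivity) (by
      have e3 : (2 * (X * Y)) ^ 2 = 4 * (X * Y) ^ 2 := by ring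
      rw [e3]; linarith)
  rw [← e1, ← e2, ← mul_pow] at hCS
  have hW := le_of_abs_le (abs_le_of_sq_le_sq hCS (by positivity))
  have hXY2 : 2 * (X * Y) < Real.cosh b₁ * Real.cosh c₂ + Real.cosh b₂ * Real.cosh c₁ := by
    have h3 : (2 * (X * Y)) ^ 2
        < (Real.cosh b₁ * Real.cosh c₂ + Real.cosh b₂ * Real.cosh c₁) ^ 2 := by
      have e3 : (2 * (X * Y)) ^ 2 = 4 * (X * Y) ^ 2 := by ring
      have e4 : (Real.cosh b₁ * Real.cosh c₂ + Real.cosh b₂ * Real.cosh c₁) ^ 2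
          = (Real.cosh b₁ * Real.cosh c₂ - Real.cosh b₂ * Real.cosh c₁) ^ 2
            + 4 * ((Real.cosh b₁ * Real.cosh b₂) * (Real.cosh c₁ * Real.cosh c₂)) := by ring
      have e5 := sq_nonneg (Real.cosh b₁ * Real.cosh c₂ - Real.cosh b₂ * Real.cosh c₁)
      rw [e3, e4]
      linarith
    exact lt_of_pow_lt_pow_left₀ 2 (by positivity) h3
  have hA2 := cosh_half_sq a₁ a₂
  have hB2 := cosh_half_sq b₁ b₂
  have hC2 := cosh_half_sq c₁ c₂
  rw [← hX] at hB2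
  rw [← hY] at hC2
  have hprod : Real.cosh a₁ * Real.cosh a₂ = Real.cosh b₁ * Real.cosh b₂
      + Real.cosh c₁ * Real.cosh c₂ + (Real.cosh b₁ * Real.cosh c₂
      + Real.cosh b₂ * Real.cosh c₁) := by
    rw [h₁, h₂]; ring
  have hfin : (X + Y) ^ 2 < Real.cosh ((a₁ + a₂) / 2) ^ 2 := by
    rw [hA2, hprod]
    have : (X + Y) ^ 2 = X ^ 2 + Y ^ 2 + 2 * (X * Y) := by ring
    rw [this, hB2, hC2]
    linarith
  exact lt_of_pow_lt_pow_left₀ 2 (Real.cosh_pos _).le hfin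

/-- the radial derivative at a root is positive -/
theorem radial_pos {a b c : ℝ} (hb : |b| < a) (hc : |c| < a)
    (h : Real.cosh a = Real.cosh b + Real.cosh c) :
    b * Real.sinh b + c * Real.sinh c < a * Real.sinh a := by
  have ha0 : 0 < a := lt_of_le_of_lt (abs_nonneg _) hb
  have key : ∀ d : ℝ, |d| < a → d * Real.sinh d * Real.cosh a < a * Real.sinh a * Real.cosh d := by
    intro d hd
    have e1 : d * Real.sinh d = |d| * Real.sinh |d| := by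
      rcases abs_choice d with h1 | h1 <;> rw [h1]
      rw [Real.sinh_neg]; ring
    have e2 : Real.cosh d = Real.cosh |d| := (Real.cosh_abs d).symm
    rw [e1, e2]
    set f := |d| with hf
    have hf0 : 0 ≤ f := abs_nonneg d
    have h2 : 0 < Real.sinh (a - f) := Real.sinh_pos_iff.2 (by linarith)
    rw [Real.sinh_sub] at h2
    have h3 : 0 < Real.sinh a * Real.cosh f :=
      mul_pos (Real.sinh_pos_iff.2 ha0) (Real.cosh_pos _)
    nlinarith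
  have h1 := key b hb
  have h2 := key c hc
  have h3 : (b * Real.sinh b + c * Real.sinh c) * Real.cosh a
      < (a * Real.sinh a) * Real.cosh a := by
    rw [h] at h1 h2 ⊢
    nlinarith
  exact lt_of_mul_lt_mul_right h3 (Real.cosh_pos _).le

end Pool.Agent.MAG
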