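import Pool.Agent.MAG.Alg

/-! The arithmetic core: proportional hyperbolic sines. -/

namespace Pool.Agent.MAG

open IntermediateField

private theorem two_sinh_eq (r : ℝ) (m : ℤ) :
    Real.exp r ^ m - Real.exp r ^ (-m) = 2 * Real.sinh (m * r) := by
  rw [Real.sinh_eq, ← Real.rpow_intCast, ← Real.rpow_intCast, ← Real.exp_mul, ← Real.exp_mul]
  push_cast
  rw [mul_comm r, mul_neg, mul_comm r]; ring

private theorem two_cosh_eq (r : ℝ) (m : ℤ) :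
    Real.exp r ^ m + Real.exp r ^ (-m) = 2 * Real.cosh (m * r) := by
  rw [Real.cosh_eq, ← Real.rpow_intCast, ← Real.rpow_intCast, ← Real.exp_mul, ← Real.exp_mul]
  push_cast
  rw [mul_comm r, mul_neg, mul_comm r]; ring

theorem main_alg {r : ℝ} (hr : 0 < r) {i j k : ℤ} (hj : |j| < i) (hk : |k| < i)
    (hE : Real.cosh (i * r) = Real.cosh (j * r) + Real.cosh (k * r)) {P Q : ℤ} (hQ : 0 < Q)
    (hL : Real.sinh (i * r) + Q * Real.sinh (k * r) = P * Real.sinh (j * r)) (hj0 : j ≠ 0)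
    {c₀ : ℝ} (hc : 2 * Real.cosh (i * r) ≤ c₀) {M : ℕ} (hM : 2 * c₀ ≤ M)
    (hQM : 2 * M * c₀ < Q) :
    ∃ k₁ k₂ e : ℤ, 1 ≤ k₂ ∧ k₂ ≤ M ∧ |(k₂ : ℝ) * (P / Q) - k₁| ≤ 1 ∧ e = k₂ * P - k₁ * Q ∧
      |(e : ℝ)| ≤ M * c₀ ∧ (k₁ : ℝ) * Real.sinh (j * r) = k₂ * Real.sinh (k * r) ∧
      (k₂ : ℝ) * Real.sinh (i * r) = e * Real.sinh (j * r) := by
  have hc0 : 2 ≤ c₀ := by linarith [Real.one_le_cosh (i * r)]
  have hM0 : (0 : ℝ) < M := by linarith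
  have hMpos : 0 < M := by exact_mod_cast hM0
  have hQ0 : (0 : ℝ) < Q := by exact_mod_cast hQ
  obtain ⟨k₁, k₂, hk0, hkM, hkk⟩ := Real.exists_int_int_abs_mul_sub_le ((P : ℝ) / Q) hMpos
  set T : ℝ := Real.exp r with hT
  have hT0 : T ≠ 0 := (Real.exp_pos r).ne'
  have heqT : T ^ i + T ^ (-i) = T ^ j + T ^ (-j) + T ^ k + T ^ (-k) := by
    have h1 := two_cosh_eq r i
    have h2 := two_cosh_eq r j
    have h3 := two_cosh_eq r k
    linarith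
  have hint : IsIntegral ℤ T := isIntegral_of_eq hT0 hj hk heqT
  have hintQ : IsIntegral ℚ T := hint.tower_top
  haveI : FiniteDimensional ℚ ℚ⟮T⟯ := adjoin.finiteDimensional hintQ
  haveI : NumberField ℚ⟮T⟯ := ⟨⟩
  set τ : ℚ⟮T⟯ := AdjoinSimple.gen ℚ T with hτ
  have hτT : algebraMap ℚ⟮T⟯ ℝ τ = T := AdjoinSimple.algebraMap_gen ℚ T
  have hinj : Function.Injective (algebraMap ℚ⟮T⟯ ℝ) := (algebraMap ℚ⟮T⟯ ℝ).injective
  have hτ0 : τ ≠ 0 := by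
    intro h0
    rw [h0, map_zero] at hτT
    exact hT0 hτT.symm
  have heqτ : τ ^ i + τ ^ (-i) = τ ^ j + τ ^ (-j) + τ ^ k + τ ^ (-k) := by
    apply hinj
    simp only [map_add, map_zpow₀, hτT]
    exact heqT
  have hLT : (T ^ i - T ^ (-i)) + Q * (T ^ k - T ^ (-k)) = P * (T ^ j - T ^ (-j)) := by
    rw [two_sinh_eq, two_sinh_eq, two_sinh_eq]
    linear_combination 2 * hL
  have hLτ : (τ ^ i - τ ^ (-i)) + (Q : ℚ⟮T⟯) * (τ ^ k - τ ^ (-k))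
      = (P : ℚ⟮T⟯) * (τ ^ j - τ ^ (-j)) := by
    apply hinj
    simp only [map_add, map_sub, map_mul, map_zpow₀, hτT, map_intCast]
    exact hLT
  have i1 : IsIntegral ℤ τ := isIntegral_of_eq hτ0 hj hk heqτ
  have i2 : IsIntegral ℤ τ⁻¹ := isIntegral_of_eq (inv_ne_zero hτ0) hj hk (by
    rw [inv_zpow', inv_zpow', inv_zpow', inv_zpow', inv_zpow', inv_zpow', neg_neg, neg_neg,
      neg_neg]
    linear_combination heqτ)
  have iS : ∀ m : ℤ, IsIntegral ℤ (τ ^ m - τ ^ (-m)) := fun m =>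
    (isIntegral_zpow i1 i2 m).sub (isIntegral_zpow i1 i2 (-m))
  have iZ : ∀ n : ℤ, IsIntegral ℤ (n : ℚ⟮T⟯) := fun n => by
    have := isIntegral_algebraMap (R := ℤ) (A := ℚ⟮T⟯) (x := n)
    simpa using this
  -- conjugates
  have hconj : ∀ (φ : ℚ⟮T⟯ →ₐ[ℚ] ℂ) (m : ℤ),
      ‖φ (τ ^ m - τ ^ (-m))‖ ≤ 2 * Real.cosh (m * r) := by
    intro φ m
    have hs : φ τ ≠ 0 := (map_ne_zero φ).2 hτ0
    have h1 : (φ τ) ^ i + (φ τ) ^ (-i) = (φ τ) ^ j + (φ τ) ^ (-j) + (φ τ) ^ k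
        + (φ τ) ^ (-k) := by
      have h2 := congrArg φ heqτ
      simpa only [map_add, map_zpow₀] using h2
    have h3 := conj_bound hj hk hr hE hs h1 m
    simpa only [map_sub, map_zpow₀] using h3
  have hcj : 2 * Real.cosh (j * r) ≤ c₀ := by
    refine le_trans ?_ hc
    linarith [Real.cosh_pos (k * r)]
  have hsinhj : Real.sinh (j * r) ≠ 0 := by
    rw [Ne, Real.sinh_eq_zero]
    exact mul_ne_zero (by exact_mod_cast hj0) hr.ne'
  have hone : (1 : ℝ) / (M + 1) ≤ 1 := by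
    rw [div_le_one (by linarith)]; linarith
  have hkR : (k₂ : ℝ) ≤ M := by exact_mod_cast hkM
  have hk0R : (0 : ℝ) < k₂ := by exact_mod_cast hk0
  -- the small algebraic integer
  have hω : (k₁ : ℚ⟮T⟯) * (τ ^ j - τ ^ (-j)) - (k₂ : ℚ⟮T⟯) * (τ ^ k - τ ^ (-k)) = 0 := by
    refine eq_zero_of_small (((iZ k₁).mul (iS j)).sub ((iZ k₂).mul (iS k))) ?_
    intro φ
    set x := φ (τ ^ j - τ ^ (-j)) with hx
    set y := φ (τ ^ i - τ ^ (-i)) with hy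
    set w := φ ((k₁ : ℚ⟮T⟯) * (τ ^ j - τ ^ (-j)) - (k₂ : ℚ⟮T⟯) * (τ ^ k - τ ^ (-k))) with hw
    have h1 : (Q : ℂ) * w = ((k₁ * Q - k₂ * P : ℤ) : ℂ) * x + (k₂ : ℂ) * y := by
      have h2 : (Q : ℚ⟮T⟯) * ((k₁ : ℚ⟮T⟯) * (τ ^ j - τ ^ (-j))
          - (k₂ : ℚ⟮T⟯) * (τ ^ k - τ ^ (-k)))
          = ((k₁ * Q - k₂ * P : ℤ) : ℚ⟮T⟯) * (τ ^ j - τ ^ (-j))
            + (k₂ : ℚ⟮T⟯) * (τ ^ i - τ ^ (-i)) := by
        push_cast
        linear_combination (-(k₂ : ℚ⟮T⟯)) * hLτ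
      have h3 := congrArg φ h2
      rw [map_mul, map_add, map_mul φ (((k₁ * Q - k₂ * P : ℤ) : ℚ⟮T⟯)), map_mul φ (k₂ : ℚ⟮T⟯),
        map_intCast, map_intCast, map_intCast] at h3
      exact h3
    have hxn : ‖x‖ ≤ c₀ := (hconj φ j).trans hcj
    have hyn : ‖y‖ ≤ c₀ := (hconj φ i).trans hc
    have h4 : (Q : ℝ) * ‖w‖ ≤ |(k₁ : ℝ) * Q - k₂ * P| * c₀ + k₂ * c₀ := by
      have h5 : ‖(Q : ℂ) * w‖ = (Q : ℝ) * ‖w‖ := by
        rw [norm_mul, Complex.norm_intCast, abs_of_pos hQ0]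
      rw [← h5, h1]
      refine (norm_add_le _ _).trans ?_
      rw [norm_mul, norm_mul, Complex.norm_intCast, Complex.norm_intCast, abs_of_pos hk0R]
      push_cast
      exact add_le_add (mul_le_mul_of_nonneg_left hxn (abs_nonneg _))
        (mul_le_mul_of_nonneg_left hyn hk0R.le)
    have h6 : |(k₁ : ℝ) * Q - k₂ * P| ≤ Q / (M + 1) := by
      have h7 : (k₁ : ℝ) * Q - k₂ * P = -(Q * (k₂ * (P / Q) - k₁)) := by
        field_simp; ring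
      rw [h7, abs_neg, abs_mul, abs_of_pos hQ0]
      calc (Q : ℝ) * |(k₂ : ℝ) * (P / Q) - k₁| ≤ Q * (1 / (M + 1)) :=
            mul_le_mul_of_nonneg_left hkk hQ0.le
        _ = Q / (M + 1) := by ring
    have h8 : |(k₁ : ℝ) * Q - k₂ * P| * c₀ ≤ Q / 2 := by
      calc |(k₁ : ℝ) * Q - k₂ * P| * c₀ ≤ Q / (M + 1) * c₀ :=
            mul_le_mul_of_nonneg_right h6 (by linarith)
        _ ≤ Q / 2 := by
            rw [div_mul_eq_mul_div, div_le_div_iff₀ (by linarith) (by norm_num)]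
            nlinarith
    have h9 : (k₂ : ℝ) * c₀ ≤ M * c₀ := mul_le_mul_of_nonneg_right hkR (by linarith)
    have h10 : (Q : ℝ) * ‖w‖ < Q * 1 := by linarith
    exact lt_of_mul_lt_mul_left h10 hQ0.le
  have g1 : (k₁ : ℝ) * Real.sinh (j * r) = k₂ * Real.sinh (k * r) := by
    have h1 := congrArg (algebraMap ℚ⟮T⟯ ℝ) hω
    simp only [map_sub, map_mul, map_zpow₀, hτT, map_intCast, map_zero] at h1
    rw [two_sinh_eq, two_sinh_eq] at h1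
    linarith
  have hτe : (k₂ : ℚ⟮T⟯) * (τ ^ i - τ ^ (-i))
      = ((k₂ * P - k₁ * Q : ℤ) : ℚ⟮T⟯) * (τ ^ j - τ ^ (-j)) := by
    push_cast
    linear_combination (k₂ : ℚ⟮T⟯) * hLτ + (Q : ℚ⟮T⟯) * hω
  refine ⟨k₁, k₂, k₂ * P - k₁ * Q, hk0, hkM, hkk.trans hone, rfl, ?_, g1, ?_⟩
  · by_contra hcon
    push Not at hcon
    have he0 : 0 < |((k₂ * P - k₁ * Q : ℤ) : ℝ)| := by
      refine lt_trans ?_ hcon
      exact mul_pos hM0 (by linarith)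
    have hz : τ ^ j - τ ^ (-j) = 0 := by
      refine eq_zero_of_small (iS j) ?_
      intro φ
      have h1 := congrArg φ hτe
      rw [map_mul φ (k₂ : ℚ⟮T⟯), map_mul φ (((k₂ * P - k₁ * Q : ℤ) : ℚ⟮T⟯)), map_intCast,
        map_intCast] at h1
      have h2 := congrArg norm h1
      rw [norm_mul, norm_mul, Complex.norm_intCast, Complex.norm_intCast, abs_of_pos hk0R] at h2
      have hyn : ‖φ (τ ^ i - τ ^ (-i))‖ ≤ c₀ := (hconj φ i).trans hc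
      have h3 : (k₂ : ℝ) * ‖φ (τ ^ i - τ ^ (-i))‖ ≤ M * c₀ :=
        mul_le_mul hkR hyn (norm_nonneg _) hM0.le
      have h4 : |((k₂ * P - k₁ * Q : ℤ) : ℝ)| * ‖φ (τ ^ j - τ ^ (-j))‖
          < |((k₂ * P - k₁ * Q : ℤ) : ℝ)| * 1 := by
        rw [mul_one, ← h2]
        exact lt_of_le_of_lt h3 hcon
      exact lt_of_mul_lt_mul_left h4 he0.le
    have h5 := congrArg (algebraMap ℚ⟮T⟯ ℝ) hz
    simp only [map_sub, map_zpow₀, hτT, map_zero] at h5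
    rw [two_sinh_eq] at h5
    exact hsinhj (by linarith)
  · push_cast
    linear_combination (k₂ : ℝ) * hL + (Q : ℝ) * g1

end Pool.Agent.MAG
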