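import Mathlib

/-!
# Definitions for MP_100167_gt: fibered faces of the fillings of the magic manifold

`H^1(N; R)` of the magic manifold `N` has coordinates `(x, y, z)`. Over the fibered face
with vertices `(1,0,0), (1,1,1), (0,1,0), (0,0,-1)` the Thurston norm is `x + y - z` and the
dilatation is the root `t > 1` of the specialised Teichmueller polynomial.
-/

namespace Pool.Agent.MAG

/-- the open fibered cone of the magic manifold -/
def InCone (x y z : ℝ) : Prop := 0 < x ∧ 0 < y ∧ z < x ∧ z < y

/-- `t` is the dilatation of the class `(x, y, z)` -/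
def IsDil (x y z t : ℝ) : Prop :=
  1 < t ∧ t ^ (x + y - z) + 1 = t ^ x + t ^ y + t ^ (x - z) + t ^ (y - z)

/-- the open fibered face of the filling of one cusp along the slope `-p/q` -/
def InFace (p q : ℤ) (x y z : ℝ) : Prop :=
  InCone x y z ∧ q * (x + z) = p * y ∧ x + y - z - y / q = 1

/-- `(x, y, z)` minimises the dilatation on the face -/
def IsMinPt (p q : ℤ) (x y z : ℝ) : Prop :=
  InFace p q x y z ∧ ∀ x' y' z' t t' : ℝ, InFace p q x' y' z' → IsDil x y z t →
    IsDil x' y' z' t' → t ≤ t'

end Pool.Agent.MAG
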