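import Mathlib

/-! Hyperbolic cosine facts used for the fibered face of the magic manifold. -/

namespace Pool.Agent.MAG

/-- Cross inequality: the ratio of cosh(b l) to cosh(a l) decreases strictly for |b| < a. -/
theorem cosh_cross {a b l₁ l₂ : ℝ} (hb : |b| < a) (h1 : 0 ≤ l₁) (h2 : l₁ < l₂) :
    Real.cosh (b * l₂) * Real.cosh (a * l₁) < Real.cosh (b * l₁) * Real.cosh (a * l₂) := by
  have key : ∀ b' : ℝ, 0 ≤ b' → b' < a →
      Real.cosh (b' * l₂) * Real.cosh (a * l₁) < Real.cosh (b' * l₁) * Real.cosh (a * l₂) := by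
    intro b' hb0 hba
    have e1 : Real.cosh (b' * l₂) * Real.cosh (a * l₁)
        = (Real.cosh (b' * l₂ + a * l₁) + Real.cosh (b' * l₂ - a * l₁)) / 2 := by
      rw [Real.cosh_add, Real.cosh_sub]; ring
    have e2 : Real.cosh (b' * l₁) * Real.cosh (a * l₂)
        = (Real.cosh (a * l₂ + b' * l₁) + Real.cosh (a * l₂ - b' * l₁)) / 2 := by
      rw [Real.cosh_add, Real.cosh_sub]; ring
    have i1 : Real.cosh (b' * l₂ + a * l₁) < Real.cosh (a * l₂ + b' * l₁) := by
      rw [Real.cosh_lt_cosh, abs_of_nonneg (by nlinarith), abs_of_nonneg (by nlinarith)]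
      nlinarith
    have i2 : Real.cosh (b' * l₂ - a * l₁) < Real.cosh (a * l₂ - b' * l₁) := by
      rw [Real.cosh_lt_cosh, abs_lt]
      rw [abs_of_nonneg (by nlinarith)]
      constructor <;> nlinarith
    rw [e1, e2]; linarith
  have h := key |b| (abs_nonneg b) hb
  have e : ∀ l : ℝ, Real.cosh (|b| * l) = Real.cosh (b * l) := by
    intro l
    rcases abs_choice b with hb' | hb' <;> rw [hb']
    rw [neg_mul, Real.cosh_neg]
  rwa [e, e] at h

/-- If the excess is nonnegative at l₁ it is positive at each l₂ > l₁. -/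
theorem excess_pos {a b c l₁ l₂ : ℝ} (hb : |b| < a) (hc : |c| < a) (h1 : 0 ≤ l₁) (h2 : l₁ < l₂)
    (h : Real.cosh (b * l₁) + Real.cosh (c * l₁) ≤ Real.cosh (a * l₁)) :
    Real.cosh (b * l₂) + Real.cosh (c * l₂) < Real.cosh (a * l₂) := by
  have k1 := cosh_cross hb h1 h2
  have k2 := cosh_cross hc h1 h2
  have p1 := Real.cosh_pos (a * l₁)
  have p2 := Real.cosh_pos (a * l₂)
  have : (Real.cosh (b * l₂) + Real.cosh (c * l₂)) * Real.cosh (a * l₁)
      < Real.cosh (a * l₂) * Real.cosh (a * l₁) := by nlinarith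
  exact lt_of_mul_lt_mul_right this p1.le

/-- There is a root, and it lies below each point where the excess is nonnegative. -/
theorem exists_root {a b c l : ℝ} (hl : 0 < l)
    (h : Real.cosh (b * l) + Real.cosh (c * l) ≤ Real.cosh (a * l)) :
    ∃ r, 0 < r ∧ r ≤ l ∧ Real.cosh (a * r) = Real.cosh (b * r) + Real.cosh (c * r) := by
  have hcont : ContinuousOn
      (fun r : ℝ => Real.cosh (a * r) - (Real.cosh (b * r) + Real.cosh (c * r)))
      (Set.Icc 0 l) := by fun_prop
  have hmem : (0 : ℝ) ∈ Set.Icc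
      (Real.cosh (a * 0) - (Real.cosh (b * 0) + Real.cosh (c * 0)))
      (Real.cosh (a * l) - (Real.cosh (b * l) + Real.cosh (c * l))) := by
    constructor
    · simp
    · linarith
  obtain ⟨r, hr, hr0⟩ := intermediate_value_Icc hl.le hcont hmem
  have hr0' : Real.cosh (a * r) - (Real.cosh (b * r) + Real.cosh (c * r)) = 0 := hr0
  refine ⟨r, ?_, hr.2, by linarith⟩
  rcases hr.1.lt_or_eq with h' | h'
  · exact h'
  · exfalso
    rw [← h'] at hr0'
    simp at hr0'

/-- cosh (m + log 4) ≥ 2 cosh m for m ≥ 0. -/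
theorem two_cosh_le {m : ℝ} (hm : 0 ≤ m) : 2 * Real.cosh m ≤ Real.cosh (m + Real.log 4) := by
  rw [Real.cosh_eq, Real.cosh_eq, Real.exp_add, Real.exp_log (by norm_num)]
  have h1 : Real.exp (-m) ≤ Real.exp m := Real.exp_le_exp.2 (by linarith)
  have h2 := Real.exp_pos (-(m + Real.log 4))
  linarith

theorem exists_unique_root {a b c : ℝ} (hb : |b| < a) (hc : |c| < a) :
    ∃! l : ℝ, 0 < l ∧ Real.cosh (a * l) = Real.cosh (b * l) + Real.cosh (c * l) := by
  set m := max |b| |c| with hm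
  have hma : m < a := max_lt hb hc
  have hm0 : 0 ≤ m := le_trans (abs_nonneg b) (le_max_left _ _)
  have hlog : 0 < Real.log 4 := Real.log_pos (by norm_num)
  set l := Real.log 4 / (a - m) with hl
  have hl0 : 0 < l := div_pos hlog (by linarith)
  have hne : a - m ≠ 0 := (sub_pos.2 hma).ne'
  have e0 : (a - m) * l = Real.log 4 := by
    rw [hl]; exact mul_div_cancel₀ _ hne
  have e1 : a * l = m * l + Real.log 4 := by linarith
  have hle : Real.cosh (b * l) + Real.cosh (c * l) ≤ Real.cosh (a * l) := by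
    have h1 : Real.cosh (b * l) ≤ Real.cosh (m * l) := by
      rw [Real.cosh_le_cosh, abs_mul, abs_mul, abs_of_nonneg hm0]
      exact mul_le_mul_of_nonneg_right (le_max_left _ _) (abs_nonneg _)
    have h2 : Real.cosh (c * l) ≤ Real.cosh (m * l) := by
      rw [Real.cosh_le_cosh, abs_mul, abs_mul, abs_of_nonneg hm0]
      exact mul_le_mul_of_nonneg_right (le_max_right _ _) (abs_nonneg _)
    have h3 := two_cosh_le (mul_nonneg hm0 hl0.le)
    rw [e1]; linarith
  obtain ⟨r, hr0, -, hr⟩ := exists_root hl0 hle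
  refine ⟨r, ⟨hr0, hr⟩, ?_⟩
  rintro r' ⟨hr0', hr'⟩
  rcases lt_trichotomy r' r with h | h | h
  · have := excess_pos hb hc hr0'.le h hr'.symm.le
    linarith
  · exact h
  · have := excess_pos hb hc hr0.le h hr.symm.le
    linarith

end Pool.Agent.MAG
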