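import Pool.Agent.MAG.Defs
import Pool.Agent.MAG.Root

/-! Translation of the dilatation equation to hyperbolic cosines. -/

namespace Pool.Agent.MAG

theorem isDil_exp {x y z l : ℝ} (hl : 0 < l) :
    IsDil x y z (Real.exp l) ↔ Real.cosh ((x + y - z) / 2 * l)
      = Real.cosh ((x - y + z) / 2 * l) + Real.cosh ((x - y - z) / 2 * l) := by
  have h1 : 1 < Real.exp l := Real.one_lt_exp_iff.2 hl
  set A := (x + y - z) / 2 * l with hA
  set B := (x - y + z) / 2 * l with hB
  set C := (x - y - z) / 2 * l with hC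
  have e1 : Real.exp l ^ (x + y - z) = Real.exp A * Real.exp A := by
    rw [← Real.exp_mul, ← Real.exp_add]; congr 1; rw [hA]; ring
  have e2 : Real.exp l ^ x = Real.exp A * Real.exp B := by
    rw [← Real.exp_mul, ← Real.exp_add]; congr 1; rw [hA, hB]; ring
  have e3 : Real.exp l ^ y = Real.exp A * Real.exp (-C) := by
    rw [← Real.exp_mul, ← Real.exp_add]; congr 1; rw [hA, hC]; ring
  have e4 : Real.exp l ^ (x - z) = Real.exp A * Real.exp C := by
    rw [← Real.exp_mul, ← Real.exp_add]; congr 1; rw [hA, hC]; ring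
  have e5 : Real.exp l ^ (y - z) = Real.exp A * Real.exp (-B) := by
    rw [← Real.exp_mul, ← Real.exp_add]; congr 1; rw [hA, hB]; ring
  have e6 : (1 : ℝ) = Real.exp A * Real.exp (-A) := by
    rw [← Real.exp_add]; simp
  have hAp := Real.exp_pos A
  unfold IsDil
  rw [e1, e2, e3, e4, e5, Real.cosh_eq, Real.cosh_eq, Real.cosh_eq]
  constructor
  · rintro ⟨-, h⟩
    have h' : Real.exp A * (Real.exp A + Real.exp (-A))
        = Real.exp A * (Real.exp B + Real.exp (-B) + (Real.exp C + Real.exp (-C))) := by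
      rw [mul_add, ← e6, h]; ring
    have h'' := mul_left_cancel₀ hAp.ne' h'
    linarith
  · intro h
    refine ⟨h1, ?_⟩
    have h' : Real.exp A + Real.exp (-A)
        = Real.exp B + Real.exp (-B) + (Real.exp C + Real.exp (-C)) := by linarith
    calc Real.exp A * Real.exp A + 1 = Real.exp A * (Real.exp A + Real.exp (-A)) := by
          rw [mul_add, ← e6]
      _ = _ := by rw [h']; ring

theorem inCone_iff {x y z : ℝ} : InCone x y z ↔
    |(x - y + z) / 2| < (x + y - z) / 2 ∧ |(x - y - z) / 2| < (x + y - z) / 2 := by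
  unfold InCone
  rw [abs_lt, abs_lt]
  constructor
  · rintro ⟨h1, h2, h3, h4⟩
    refine ⟨⟨?_, ?_⟩, ⟨?_, ?_⟩⟩ <;> linarith
  · rintro ⟨⟨h1, h2⟩, ⟨h3, h4⟩⟩
    refine ⟨?_, ?_, ?_, ?_⟩ <;> linarith

theorem exists_unique_dil {x y z : ℝ} (h : InCone x y z) : ∃! t : ℝ, IsDil x y z t := by
  obtain ⟨hb, hc⟩ := inCone_iff.1 h
  obtain ⟨l, ⟨hl0, hl⟩, huniq⟩ := exists_unique_root hb hc
  refine ⟨Real.exp l, (isDil_exp hl0).2 hl, ?_⟩
  intro t ht
  have ht0 : 0 < t := lt_trans one_pos ht.1
  have hlog : 0 < Real.log t := Real.log_pos ht.1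
  have e := Real.exp_log ht0
  rw [← e] at ht ⊢
  have h2 := huniq (Real.log t) ⟨hlog, (isDil_exp hlog).1 ht⟩
  rw [h2]

/-- if the excess at `l` is nonnegative there is a dilatation at most `exp l`. -/
theorem exists_dil_le {x y z l : ℝ} (hl : 0 < l)
    (h : Real.cosh ((x - y + z) / 2 * l) + Real.cosh ((x - y - z) / 2 * l)
      ≤ Real.cosh ((x + y - z) / 2 * l)) :
    ∃ r, 0 < r ∧ r ≤ l ∧ IsDil x y z (Real.exp r) := by
  obtain ⟨r, h1, h2, h3⟩ := exists_root hl h
  exact ⟨r, h1, h2, (isDil_exp h1).2 h3⟩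

/-- the Lagrange condition at a minimum point -/
theorem lagrange {p q : ℤ} (hq : 2 ≤ q) {x y z l : ℝ} (hmin : IsMinPt p q x y z) (hl : 0 < l)
    (hd : IsDil x y z (Real.exp l)) :
    Real.sinh ((x + y - z) / 2 * l) + (2 * q - 1) * Real.sinh ((x - y - z) / 2 * l)
      = (p - q) * Real.sinh ((x - y + z) / 2 * l) := by
  obtain ⟨⟨hcone, hplane, hnorm⟩, hle⟩ := hmin
  have hq0 : (q : ℝ) ≠ 0 := by
    have : (2 : ℝ) ≤ q := by exact_mod_cast hq
    linarith
  have heq := (isDil_exp hl).1 hd
  set A := (x + y - z) / 2 * l with hA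
  set B := (x - y + z) / 2 * l with hB
  set C := (x - y - z) / 2 * l with hC
  set P : ℝ := (p : ℝ) - q with hP
  set Q : ℝ := 2 * (q : ℝ) - 1 with hQ
  let f : ℝ → ℝ := fun e => Real.cosh (A + e) - Real.cosh (B + P * e) - Real.cosh (C - Q * e)
  have hder : HasDerivAt f (Real.sinh A - P * Real.sinh B + Q * Real.sinh C) 0 := by
    have d1 : HasDerivAt (fun e : ℝ => Real.cosh (A + e)) (Real.sinh (A + 0) * 1) 0 :=
      ((hasDerivAt_id (0 : ℝ)).const_add A).cosh
    have d2 : HasDerivAt (fun e : ℝ => Real.cosh (B + P * e)) (Real.sinh (B + P * 0) * (P * 1)) 0 :=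
      (((hasDerivAt_id (0 : ℝ)).const_mul P).const_add B).cosh
    have d3 : HasDerivAt (fun e : ℝ => Real.cosh (C - Q * e))
        (Real.sinh (C - Q * 0) * (-(Q * 1))) 0 :=
      (((hasDerivAt_id (0 : ℝ)).const_mul Q).const_sub C).cosh
    refine ((d1.sub d2).sub d3).congr_deriv ?_
    rw [add_zero, mul_zero, add_zero, mul_zero, sub_zero]
    ring
  have hmax : IsLocalMax f 0 := by
    have hc1 : ∀ᶠ e : ℝ in nhds 0, InCone (x + e / l * (P + 1)) (y + e / l * (Q + 1))
        (z + e / l * (P + Q)) := by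
      have c1 : Filter.Tendsto (fun e : ℝ => x + e / l * (P + 1)) (nhds 0) (nhds x) := by
        have : ContinuousAt (fun e : ℝ => x + e / l * (P + 1)) 0 := by fun_prop
        have h := this.tendsto
        simpa using h
      have c2 : Filter.Tendsto (fun e : ℝ => y + e / l * (Q + 1)) (nhds 0) (nhds y) := by
        have : ContinuousAt (fun e : ℝ => y + e / l * (Q + 1)) 0 := by fun_prop
        have h := this.tendsto
        simpa using h
      have c3 : Filter.Tendsto (fun e : ℝ => z + e / l * (P + Q)) (nhds 0) (nhds z) := by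
        have : ContinuousAt (fun e : ℝ => z + e / l * (P + Q)) 0 := by fun_prop
        have h := this.tendsto
        simpa using h
      obtain ⟨h1, h2, h3, h4⟩ := hcone
      filter_upwards [c1.eventually (lt_mem_nhds h1), c2.eventually (lt_mem_nhds h2),
        c3.eventually_lt c1 h3, c3.eventually_lt c2 h4] with e g1 g2 g3 g4
      exact ⟨g1, g2, g3, g4⟩
    filter_upwards [hc1] with e he
    by_contra hcon
    push Not at hcon
    have hf0 : f 0 = 0 := by
      show Real.cosh (A + 0) - Real.cosh (B + P * 0) - Real.cosh (C - Q * 0) = 0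
      simp [heq]
    rw [hf0] at hcon
    have hcon' : 0 < Real.cosh (A + e) - Real.cosh (B + P * e) - Real.cosh (C - Q * e) := hcon
    set x' := x + e / l * (P + 1) with hx'
    set y' := y + e / l * (Q + 1) with hy'
    set z' := z + e / l * (P + Q) with hz'
    have hll : e / l * l = e := by field_simp
    have hA' : (x' + y' - z') / 2 * l = A + e := by
      rw [hx', hy', hz', hA]
      linear_combination hll
    have hB' : (x' - y' + z') / 2 * l = B + P * e := by
      rw [hx', hy', hz', hB]
      linear_combination P * hll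
    have hC' : (x' - y' - z') / 2 * l = C - Q * e := by
      rw [hx', hy', hz', hC]
      linear_combination (-Q) * hll
    have hface : InFace p q x' y' z' := by
      refine ⟨he, ?_, ?_⟩
      · rw [hx', hy', hz', hP, hQ]
        linear_combination hplane
      · have hq2 : (Q + 1) / q = 2 := by
          rw [hQ, div_eq_iff hq0]; ring
        have h5 : x' + y' - z' - y' / q
            = (x + y - z - y / q) + e / l * (2 - (Q + 1) / q) := by
          rw [hx', hy', hz']; ring
        rw [h5, hq2, hnorm]; ring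
    obtain ⟨r, hr0, hrl, hr⟩ := exists_dil_le (x := x') (y := y') (z := z') hl
      (by rw [hA', hB', hC']; linarith)
    have hne : r ≠ l := by
      rintro rfl
      have := (isDil_exp hl).1 hr
      rw [hA', hB', hC'] at this
      linarith
    have hlt : r < l := lt_of_le_of_ne hrl hne
    have := hle x' y' z' _ _ hface hd hr
    have h3 := Real.exp_le_exp.1 this
    linarith
  have h0 := hmax.hasDerivAt_eq_zero hder
  linarith

end Pool.Agent.MAG
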