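import Pool.Agent.MAG.Bound

/-! Existence of a minimum point on each face. -/

namespace Pool.Agent.MAG

theorem exists_minPt {p q : ℤ} (hq : 2 ≤ q) : ∃ x y z : ℝ, IsMinPt p q x y z := by
  have hq2 : (2 : ℝ) ≤ q := by exact_mod_cast hq
  have hq0 : (0 : ℝ) < q := by linarith
  set β : ℝ := ((p : ℝ) - q) / (2 * q) with hβ
  have hβ2 : 2 * (q : ℝ) * β = p - q := by rw [hβ]; field_simp
  set s := Real.log 4 with hs
  have hs0 : 0 < s := Real.log_pos (by norm_num)
  set m := |β * s| with hm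
  have hm0 : 0 ≤ m := abs_nonneg _
  set n₁ : ℝ := 2 * (m + s) with hn₁
  let K : Set (ℝ × ℝ) := {v | 0 ≤ v.2 ∧ v.2 ≤ 2 * v.1 ∧
    Real.cosh (β * v.2) + Real.cosh (v.1 - v.2) ≤ Real.cosh v.1 ∧ v.1 ≤ n₁}
  have hKclosed : IsClosed K := by
    have c1 : IsClosed {v : ℝ × ℝ | 0 ≤ v.2} := isClosed_le continuous_const continuous_snd
    have c2 : IsClosed {v : ℝ × ℝ | v.2 ≤ 2 * v.1} :=
      isClosed_le continuous_snd (by fun_prop)
    have c3 : IsClosed {v : ℝ × ℝ | Real.cosh (β * v.2) + Real.cosh (v.1 - v.2)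
        ≤ Real.cosh v.1} := isClosed_le (by fun_prop) (by fun_prop)
    have c4 : IsClosed {v : ℝ × ℝ | v.1 ≤ n₁} := isClosed_le continuous_fst continuous_const
    exact c1.inter (c2.inter (c3.inter c4))
  have hKcomp : IsCompact K := by
    refine IsCompact.of_isClosed_subset (isCompact_Icc (a := ((0 : ℝ), (0 : ℝ)))
      (b := (n₁, 2 * n₁))) hKclosed ?_
    rintro ⟨a, y⟩ ⟨h1, h2, -, h4⟩
    simp only at h1 h2 h4
    refine ⟨⟨?_, h1⟩, ⟨h4, ?_⟩⟩
    · show (0 : ℝ) ≤ a; linarith
    · show y ≤ 2 * n₁; linarith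
  have htest : ((m + s, s) : ℝ × ℝ) ∈ K := by
    refine ⟨hs0.le, ?_, ?_, ?_⟩
    · show s ≤ 2 * (m + s); linarith
    · show Real.cosh (β * s) + Real.cosh (m + s - s) ≤ Real.cosh (m + s)
      have h1 : Real.cosh (β * s) = Real.cosh m := by rw [hm, Real.cosh_abs]
      have h2 := two_cosh_le hm0
      rw [h1, add_sub_cancel_right]; linarith
    · show m + s ≤ n₁; linarith
  obtain ⟨⟨a, y⟩, hmem, hmin⟩ := hKcomp.exists_isMinOn ⟨_, htest⟩
    (f := fun v : ℝ × ℝ => 2 * v.1 - v.2 / q) (by fun_prop)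
  obtain ⟨h1, h2, h3, h4⟩ := hmem
  simp only at h1 h2 h3 h4
  have hmin' : ∀ v ∈ K, 2 * a - y / q ≤ 2 * v.1 - v.2 / q := fun v hv => hmin hv
  -- every point of the region is at least as large
  have hall : ∀ a' y' : ℝ, 0 ≤ y' → y' ≤ 2 * a' →
      Real.cosh (β * y') + Real.cosh (a' - y') ≤ Real.cosh a' →
      2 * a - y / q ≤ 2 * a' - y' / q := by
    intro a' y' g1 g2 g3
    by_cases g4 : a' ≤ n₁
    · exact hmin' (a', y') ⟨g1, g2, g3, g4⟩
    · push Not at g4
      have g5 := hmin' _ htest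
      simp only at g5
      have g6 : y' / q ≤ y' / 2 := div_le_div_of_nonneg_left g1 (by norm_num) hq2
      have g7 : 0 < s / q := div_pos hs0 hq0
      linarith
  have ha0 : 0 ≤ a := by linarith
  have hb : |β * y| < a := by
    have h5 : Real.cosh (β * y) < Real.cosh a := by linarith [Real.cosh_pos (a - y)]
    rw [Real.cosh_lt_cosh, abs_of_nonneg ha0] at h5
    exact h5
  have hc : |a - y| < a := by
    have h5 : Real.cosh (a - y) < Real.cosh a := by linarith [Real.cosh_pos (β * y)]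
    rw [Real.cosh_lt_cosh, abs_of_nonneg ha0] at h5
    exact h5
  have hapos : 0 < a := lt_of_le_of_lt (abs_nonneg _) hb
  have hyq : y / q ≤ y / 2 := div_le_div_of_nonneg_left h1 (by norm_num) hq2
  set n := 2 * a - y / q with hn
  have hn0 : 0 < n := by
    have := (abs_lt.1 hc).1
    linarith
  have hb' := abs_lt.1 hb
  have hc' := abs_lt.1 hc
  have e1 : ((a + β * y) / n - y / n + (β * y - (a - y)) / n) / 2 * n = β * y := by
    field_simp; ring
  have e2 : ((a + β * y) / n - y / n - (β * y - (a - y)) / n) / 2 * n = a - y := by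
    field_simp; ring
  have e3 : ((a + β * y) / n + y / n - (β * y - (a - y)) / n) / 2 * n = a := by
    field_simp; ring
  have hface : InFace p q ((a + β * y) / n) (y / n) ((β * y - (a - y)) / n) := by
    refine ⟨⟨div_pos (by linarith) hn0, div_pos (by linarith) hn0, ?_, ?_⟩, ?_, ?_⟩
    · exact div_lt_div_of_pos_right (by linarith) hn0
    · exact div_lt_div_of_pos_right (by linarith) hn0
    · rw [← add_div, ← mul_div_assoc, ← mul_div_assoc]
      congr 1
      linear_combination y * hβ2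
    · have h5 : (a + β * y) / n + y / n - (β * y - (a - y)) / n - y / n / q
          = (2 * a - y / q) / n := by ring
      rw [h5, ← hn, div_self hn0.ne']
  refine ⟨_, _, _, hface, ?_⟩
  intro x' y' z' t t' hface' ht ht'
  -- the dilatation of our point is at most exp n
  obtain ⟨r, hr0, hrn, hr⟩ := exists_dil_le (x := (a + β * y) / n) (y := y / n)
    (z := (β * y - (a - y)) / n) hn0 (by rw [e1, e2, e3]; exact h3)
  have hteq : t = Real.exp r := (exists_unique_dil hface.1).unique ht hr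
  -- the other one is at least exp n
  obtain ⟨hcone', hplane', hnorm'⟩ := hface'
  have ht0' : 0 < t' := lt_trans one_pos ht'.1
  have hlog : 0 < Real.log t' := Real.log_pos ht'.1
  have hexp := Real.exp_log ht0'
  set l := Real.log t' with hl
  rw [← hexp] at ht'
  have heq := (isDil_exp hlog).1 ht'
  have f1 : (x' - y' + z') / 2 * l = β * (y' * l) := by
    rw [hβ]
    field_simp
    linear_combination hplane'
  have f2 : (x' - y' - z') / 2 * l = (x' + y' - z') / 2 * l - y' * l := by ring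
  rw [f1, f2] at heq
  have h6 := hall ((x' + y' - z') / 2 * l) (y' * l) (mul_pos hcone'.2.1 hlog).le
    (by nlinarith [hcone'.2.2.1, hcone'.2.2.2, hlog, hcone'.1,
      mul_pos (sub_pos.2 hcone'.2.2.1) hlog]) heq.ge
  have h7 : 2 * ((x' + y' - z') / 2 * l) - y' * l / q = l := by
    have : 2 * ((x' + y' - z') / 2 * l) - y' * l / q = (x' + y' - z' - y' / q) * l := by ring
    rw [this, hnorm', one_mul]
  rw [h7] at h6
  rw [hteq, ← hexp]
  exact Real.exp_le_exp.2 (hrn.trans h6)

end Pool.Agent.MAG
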