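import Pool.Agent.MAG.Bound
import Pool.Agent.MAG.Core

/-! Only finitely many slopes in a bounded range have a rational minimum point. -/

namespace Pool.Agent.MAG

/-- the relation between a slope and the integer triple -/
def Rel (p q k₁ k₂ e : ℤ) : Prop :=
  1 ≤ k₂ ∧ e = k₂ * (p - q) - k₁ * (2 * q - 1) ∧ ∃ a b c : ℝ, |c| < a ∧
    2 * (q : ℝ) * b = (p - q) * (a - c) ∧ Real.cosh a = Real.cosh b + Real.cosh c ∧
    (k₁ : ℝ) * Real.sinh b = k₂ * Real.sinh c ∧ (k₂ : ℝ) * Real.sinh a = e * Real.sinh b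

theorem rel_unique {p q p' q' k₁ k₂ e : ℤ} (h : Rel p q k₁ k₂ e) (h' : Rel p' q' k₁ k₂ e) :
    p = p' ∧ q = q' := by
  obtain ⟨hk, he, a, b, c, hca, hpl, hco, g1, g2⟩ := h
  obtain ⟨-, he', a', b', c', hca', hpl', hco', g1', g2'⟩ := h'
  obtain ⟨rfl, rfl, rfl⟩ := data_unique hco hco' (lt_of_le_of_lt (abs_nonneg _) hca)
    (lt_of_le_of_lt (abs_nonneg _) hca') hk g1 g2 g1' g2'
  exact slope_unique hk hca hpl hpl' he he' g1 g2

/-- common denominator -/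
theorem rational_data (x y z : ℚ) : ∃ D : ℕ, 0 < D ∧ ∃ i j k : ℤ,
    (i : ℝ) = ((x : ℝ) + y - z) / 2 * D ∧ (j : ℝ) = ((x : ℝ) - y + z) / 2 * D ∧
    (k : ℝ) = ((x : ℝ) - y - z) / 2 * D := by
  have hx : (x : ℝ) * x.den = x.num := by exact_mod_cast Rat.mul_den_eq_num x
  have hy : (y : ℝ) * y.den = y.num := by exact_mod_cast Rat.mul_den_eq_num y
  have hz : (z : ℝ) * z.den = z.num := by exact_mod_cast Rat.mul_den_eq_num z
  refine ⟨2 * (x.den * (y.den * z.den)), ?_, x.num * (y.den * z.den) + y.num * (x.den * z.den)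
    - z.num * (x.den * y.den), x.num * (y.den * z.den) - y.num * (x.den * z.den)
    + z.num * (x.den * y.den), x.num * (y.den * z.den) - y.num * (x.den * z.den)
    - z.num * (x.den * y.den), ?_, ?_, ?_⟩
  · have := x.den_pos
    have := y.den_pos
    have := z.den_pos
    positivity
  · push_cast
    linear_combination (-(y.den * z.den : ℝ)) * hx - (x.den * z.den : ℝ) * hy
      + (x.den * y.den : ℝ) * hz
  · push_cast
    linear_combination (-(y.den * z.den : ℝ)) * hx + (x.den * z.den : ℝ) * hy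
      - (x.den * y.den : ℝ) * hz
  · push_cast
    linear_combination (-(y.den * z.den : ℝ)) * hx + (x.den * z.den : ℝ) * hy
      + (x.den * y.den : ℝ) * hz

theorem slope_bound {R : ℝ} {p q : ℤ} (hq : 2 ≤ q) (hR : |(p : ℝ)| ≤ R * q) :
    |((p - q : ℤ) : ℝ) / ((2 * q - 1 : ℤ) : ℝ)| ≤ R + 1 := by
  have hq2 : (2 : ℝ) ≤ q := by exact_mod_cast hq
  have hq0 : (0 : ℝ) < q := by linarith
  push_cast
  rw [abs_div, abs_of_pos (show (0 : ℝ) < 2 * q - 1 by linarith), div_le_iff₀ (by linarith)]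
  have h9 : |(p : ℝ) - q| ≤ |(p : ℝ)| + |(q : ℝ)| := abs_sub _ _
  rw [abs_of_pos hq0] at h9
  have h10 : 0 ≤ R * q := (abs_nonneg _).trans hR
  have h11 : 0 ≤ R := by
    by_contra hcon
    push Not at hcon
    nlinarith
  nlinarith

theorem first_bound {ξ B M : ℝ} {k₁ k₂ : ℤ} (hk0 : 1 ≤ k₂) (hkM : (k₂ : ℝ) ≤ M) (hξ : |ξ| ≤ B)
    (h : |(k₂ : ℝ) * ξ - k₁| ≤ 1) : |(k₁ : ℝ)| ≤ M * B + 1 := by
  have hk20 : (0 : ℝ) < k₂ := by exact_mod_cast (by omega : 0 < k₂)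
  have h12 : |(k₂ : ℝ) * ξ| ≤ M * B := by
    rw [abs_mul, abs_of_pos hk20]
    exact mul_le_mul hkM hξ (abs_nonneg _) (hk20.le.trans hkM)
  have h13 := abs_sub_abs_le_abs_sub (k₁ : ℝ) ((k₂ : ℝ) * ξ)
  rw [abs_sub_comm] at h13
  linarith

theorem exists_rel {R : ℝ} {M : ℕ} (hM : 4 * Real.cosh (Real.log 4 * (R + 3)) ≤ M) {p q : ℤ}
    (hq : 2 ≤ q) (hpq : IsCoprime p q) (hR : |(p : ℝ)| ≤ R * q)
    (hbig : 4 * M * Real.cosh (Real.log 4 * (R + 3)) < 2 * (q : ℝ) - 1)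
    {x y z : ℚ} (hmin : IsMinPt p q x y z) :
    ∃ k₁ k₂ e : ℤ, Rel p q k₁ k₂ e ∧ |(k₁ : ℝ)| ≤ M * (R + 1) + 1 ∧ |(k₂ : ℝ)| ≤ M ∧
      |(e : ℝ)| ≤ M * (2 * Real.cosh (Real.log 4 * (R + 3))) := by
  have hq2 : (2 : ℝ) ≤ q := by exact_mod_cast hq
  have hq0 : (0 : ℝ) < q := by linarith
  have hcone := hmin.1.1
  obtain ⟨t, ht, -⟩ := exists_unique_dil hcone
  have ht0 : 0 < t := lt_trans one_pos ht.1
  have hl : 0 < Real.log t := Real.log_pos ht.1
  have hexp := Real.exp_log ht0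
  set l := Real.log t with hldef
  rw [← hexp] at ht
  have hlag := lagrange hq hmin hl ht
  have hbd := bound hq hR hmin hl ht
  have heq := (isDil_exp hl).1 ht
  obtain ⟨hb, hc⟩ := inCone_iff.1 hcone
  obtain ⟨D, hD, i, j, k, hi, hj, hk⟩ := rational_data x y z
  have hD0 : (0 : ℝ) < D := by exact_mod_cast hD
  have hr : 0 < l / D := div_pos hl hD0
  have ei : (i : ℝ) * (l / D) = ((x : ℝ) + y - z) / 2 * l := by rw [hi]; field_simp
  have ej : (j : ℝ) * (l / D) = ((x : ℝ) - y + z) / 2 * l := by rw [hj]; field_simp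
  have ek : (k : ℝ) * (l / D) = ((x : ℝ) - y - z) / 2 * l := by rw [hk]; field_simp
  have hji : |j| < i := by
    have : |(j : ℝ)| < i := by
      rw [hi, hj, abs_mul, abs_of_pos hD0]
      exact mul_lt_mul_of_pos_right hb hD0
    exact_mod_cast this
  have hki : |k| < i := by
    have : |(k : ℝ)| < i := by
      rw [hi, hk, abs_mul, abs_of_pos hD0]
      exact mul_lt_mul_of_pos_right hc hD0
    exact_mod_cast this
  have hplane : 2 * (q : ℝ) * (((x : ℝ) - y + z) / 2 * l)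
      = (p - q) * (((x : ℝ) + y - z) / 2 * l - ((x : ℝ) - y - z) / 2 * l) := by
    have := hmin.1.2.1
    linear_combination l * this
  have hne : p ≠ q := by
    rintro rfl
    have h1 : IsUnit p := isCoprime_self.1 hpq
    rw [Int.isUnit_iff] at h1
    omega
  have hd : 0 < ((x : ℝ) + y - z) / 2 * l - ((x : ℝ) - y - z) / 2 * l := by
    have : 0 < (y : ℝ) * l := mul_pos hcone.2.1 hl
    linarith
  have hj0 : j ≠ 0 := by
    rintro rfl
    rw [← ej] at hplane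
    simp only [Int.cast_zero, zero_mul, mul_zero] at hplane
    rcases mul_eq_zero.1 hplane.symm with h1 | h1
    · exact hne (by exact_mod_cast sub_eq_zero.1 h1)
    · exact hd.ne' h1
  have ha0 : 0 < ((x : ℝ) + y - z) / 2 * l := by
    rw [← ei]
    have : 0 < i := lt_of_le_of_lt (abs_nonneg j) hji
    exact mul_pos (by exact_mod_cast this) hr
  have hcosh : 2 * Real.cosh ((i : ℝ) * (l / D)) ≤ 2 * Real.cosh (Real.log 4 * (R + 3)) := by
    rw [ei]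
    have : Real.cosh (((x : ℝ) + y - z) / 2 * l) ≤ Real.cosh (Real.log 4 * (R + 3)) := by
      rw [Real.cosh_le_cosh, abs_of_pos ha0, abs_of_pos (ha0.trans hbd)]
      exact hbd.le
    linarith
  have hca : |((x : ℝ) - y - z) / 2 * l| < ((x : ℝ) + y - z) / 2 * l := by
    rw [abs_mul, abs_of_pos hl]
    exact mul_lt_mul_of_pos_right hc hl
  have hE : Real.cosh ((i : ℝ) * (l / D)) = Real.cosh (j * (l / D)) + Real.cosh (k * (l / D)) := by
    rw [ei, ej, ek]; exact heq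
  have hL : Real.sinh ((i : ℝ) * (l / D)) + ((2 * q - 1 : ℤ) : ℝ) * Real.sinh (k * (l / D))
      = ((p - q : ℤ) : ℝ) * Real.sinh (j * (l / D)) := by
    rw [ei, ej, ek]; push_cast; exact hlag
  have hM' : 2 * (2 * Real.cosh (Real.log 4 * (R + 3))) ≤ M := by linarith
  have hQM : 2 * (M : ℝ) * (2 * Real.cosh (Real.log 4 * (R + 3))) < ((2 * q - 1 : ℤ) : ℝ) := by
    push_cast; linarith
  obtain ⟨k₁, k₂, e, h1, h2, h3, h4, h5, h6, h7⟩ := main_alg hr hji hki hE (by omega) hL hj0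
    hcosh hM' hQM
  rw [ej, ek] at h6
  rw [ei, ej] at h7
  have hk2R : (k₂ : ℝ) ≤ M := by exact_mod_cast h2
  have hk20 : (0 : ℝ) < k₂ := by exact_mod_cast (by omega : 0 < k₂)
  refine ⟨k₁, k₂, e, ⟨h1, h4, _, _, _, hca, hplane, heq, h6, h7⟩,
    first_bound h1 hk2R (slope_bound hq hR) h3, ?_, h5⟩
  rw [abs_of_pos hk20]
  exact hk2R

theorem finite_exceptional (R : ℝ) : {pq : ℤ × ℤ | 2 ≤ pq.2 ∧ IsCoprime pq.1 pq.2 ∧
    |(pq.1 : ℝ)| ≤ R * pq.2 ∧ ∃ x y z : ℚ, IsMinPt pq.1 pq.2 x y z}.Finite := by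
  set C := Real.cosh (Real.log 4 * (R + 3)) with hC
  obtain ⟨M, hM⟩ := exists_nat_ge (4 * C)
  obtain ⟨N, hN⟩ := exists_nat_ge (M * (|R| + 1) + 1 + M + M * (2 * C))
  obtain ⟨B, hB⟩ := exists_nat_ge ((4 * M * C + 1) * (|R| + 1))
  have hC1 : 1 ≤ C := Real.one_le_cosh _
  have hM0 : (0 : ℝ) ≤ M := Nat.cast_nonneg _
  have hR0 := abs_nonneg R
  have hRle := le_abs_self R
  -- the slopes with a large denominator
  set S : Set (ℤ × ℤ) := {pq : ℤ × ℤ | ∃ k₁ k₂ e : ℤ, Rel pq.1 pq.2 k₁ k₂ e ∧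
    |k₁| ≤ N ∧ |k₂| ≤ N ∧ |e| ≤ N} with hS
  have hSfin : S.Finite := by
    have hch : ∀ pq : S, ∃ t : ℤ × ℤ × ℤ, t ∈ (Set.Icc (-(N : ℤ)) N) ×ˢ
        ((Set.Icc (-(N : ℤ)) N) ×ˢ (Set.Icc (-(N : ℤ)) N)) ∧
        Rel pq.1.1 pq.1.2 t.1 t.2.1 t.2.2 := by
      rintro ⟨pq, k₁, k₂, e, h, h1, h2, h3⟩
      exact ⟨(k₁, k₂, e), ⟨abs_le.1 h1, abs_le.1 h2, abs_le.1 h3⟩, h⟩
    choose f hf1 hf2 using hch
    have hbox : ((Set.Icc (-(N : ℤ)) N) ×ˢ
        ((Set.Icc (-(N : ℤ)) N) ×ˢ (Set.Icc (-(N : ℤ)) N))).Finite :=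
      (Set.finite_Icc _ _).prod ((Set.finite_Icc _ _).prod (Set.finite_Icc _ _))
    have := hbox.to_subtype
    have hinj : Function.Injective (fun pq : S => (⟨f pq, hf1 pq⟩ :
        ((Set.Icc (-(N : ℤ)) N) ×ˢ ((Set.Icc (-(N : ℤ)) N) ×ˢ
          (Set.Icc (-(N : ℤ)) N)) : Set (ℤ × ℤ × ℤ)))) := by
      intro u v huv
      have huv' : f u = f v := congrArg Subtype.val huv
      have h1 := hf2 u
      rw [huv'] at h1
      obtain ⟨h2, h3⟩ := rel_unique h1 (hf2 v)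
      exact Subtype.ext (Prod.ext h2 h3)
    have hfin : Finite S := Finite.of_injective _ hinj
    exact Set.toFinite S
  refine ((Set.finite_Icc ((-(B : ℤ)), (-(B : ℤ))) ((B : ℤ), (B : ℤ))).union hSfin).subset ?_
  rintro ⟨p, q⟩ ⟨hq, hpq, hR, x, y, z, hmin⟩
  simp only at hq hpq hR hmin
  have hq2 : (2 : ℝ) ≤ q := by exact_mod_cast hq
  by_cases hbig : 4 * M * C < 2 * (q : ℝ) - 1
  · right
    obtain ⟨k₁, k₂, e, h1, h2, h3, h4⟩ := exists_rel hM hq hpq hR hbig hmin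
    refine ⟨k₁, k₂, e, h1, ?_, ?_, ?_⟩
    · have : |(k₁ : ℝ)| ≤ N := by nlinarith
      exact_mod_cast this
    · have : |(k₂ : ℝ)| ≤ N := by nlinarith
      exact_mod_cast this
    · have : |(e : ℝ)| ≤ N := by nlinarith
      exact_mod_cast this
  · left
    push Not at hbig
    have h1 : (q : ℝ) ≤ B := by nlinarith
    have h2 : |(p : ℝ)| ≤ B := by
      have : R * q ≤ |R| * q := mul_le_mul_of_nonneg_right hRle (by linarith)
      nlinarith
    have h1' : q ≤ B := by exact_mod_cast h1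
    have h2' : |p| ≤ B := by exact_mod_cast h2
    have h3 := abs_le.1 h2'
    exact ⟨⟨h3.1, by show -(B : ℤ) ≤ q; omega⟩, ⟨h3.2, h1'⟩⟩

end Pool.Agent.MAG
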